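import Pool.Agent.Y953.ECT.Ect
import Pool.Agent.Y79.ECT.Ker

set_option autoImplicit false

/-!
# The étale coordinate at the origin of a Weierstrass curve
-/

namespace Pool.Agent.Y953.ECT

/-- The coordinate is étale. -/
theorem t_ECET : Pool.Agent.Y223.G.S_ECET := t_ECET_of Pool.Agent.Y79.ECT.t_KER

end Pool.Agent.Y953.ECT
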