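import Pool.Agent.Y953.ECT.Jac

set_option autoImplicit false

/-!
# The ring generated by the coordinates is étale
-/

namespace Pool.Agent.Y953.ECT

open MvPolynomial

section

variable {O K : Type} [CommRing O] [Field K] [Algebra O K]

/-- evaluation of the base -/
noncomputable def eT (x : K) : MvPolynomial Unit O →+* K :=
  eval₂Hom (algebraMap O K) (fun _ => x)

/-- evaluation, two variables -/
noncomputable def e2 (x Z W : K) : MvPolynomial (Fin 2) (MvPolynomial Unit O) →+* K :=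
  eval₂Hom (eT x) ![Z, W]

/-- evaluation, three variables -/
noncomputable def e3 (x Z W U : K) : MvPolynomial (Fin 3) (MvPolynomial Unit O) →+* K :=
  eval₂Hom (eT x) ![Z, W, U]

theorem e3_rn (x Z W U : K) (p : MvPolynomial (Fin 2) (MvPolynomial Unit O)) :
    e3 x Z W U (rn p) = e2 x Z W p := by
  unfold e3 e2 rn
  rw [coe_eval₂Hom, coe_eval₂Hom, eval₂_rename]
  congr 1
  funext i
  fin_cases i <;> rfl

theorem e2_map (x Z W : K) (p : MvPolynomial (Fin 2) O) :
    e2 x Z W (map (C : O →+* MvPolynomial Unit O) p) = aeval ![Z, W] p := by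
  unfold e2
  rw [coe_eval₂Hom, eval₂_map, aeval_def]
  congr 1
  ext o
  simp [eT]

/-- the first relation -/
noncomputable def rr0 (φ : MvPolynomial (Fin 2) O) :
    MvPolynomial (Fin 2) (MvPolynomial Unit O) :=
  X 0 - C (X ()) * map C φ

/-- the Jacobian determinant -/
noncomputable def JJ (φ f : MvPolynomial (Fin 2) O) :
    MvPolynomial (Fin 2) (MvPolynomial Unit O) :=
  JD (rr0 φ) (map C f)

theorem q_ind {σ : Type} {P : MvPolynomial σ (MvPolynomial Unit O) → Prop}
    (hC : ∀ o, P (C (C o))) (hT : P (C (X ()))) (hX : ∀ i, P (X i))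
    (hadd : ∀ p q, P p → P q → P (p + q)) (hmul : ∀ p q, P p → P q → P (p * q)) (p) : P p := by
  induction p using MvPolynomial.induction_on with
  | C c =>
    induction c using MvPolynomial.induction_on with
    | C o => exact hC o
    | add a b ha hb => rw [C_add]; exact hadd _ _ ha hb
    | mul_X a i ha => rw [C_mul]; exact hmul _ _ ha hT
  | add a b ha hb => exact hadd _ _ ha hb
  | mul_X a i ha => exact hmul _ _ ha (hX i)

/-- the étale algebra -/
abbrev BB (φ f : MvPolynomial (Fin 2) O) : Type :=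
  MvPolynomial (Fin 3) (MvPolynomial Unit O) ⧸
    Ideal.span (Set.range (vv (rr0 φ) (map C f) (map C φ)))

variable (x Z W : K) (φ f : MvPolynomial (Fin 2) O)

theorem e3_rel (hx : x * aeval ![Z, W] φ = Z) (hf : aeval ![Z, W] f = 0) {U : K}
    (hU : U * (aeval ![Z, W] φ * e2 x Z W (JJ φ f)) = 1) (i : Fin 3) :
    e3 x Z W U (vv (rr0 φ) (map C f) (map C φ) i) = 0 := by
  fin_cases i
  · show e3 x Z W U (rn (rr0 φ)) = 0
    rw [e3_rn, rr0, map_sub, map_mul, e2_map]
    simp only [e2, coe_eval₂Hom, eval₂_X, eval₂_C, eT]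
    simp [hx]
  · show e3 x Z W U (rn (map C f)) = 0
    rw [e3_rn, e2_map, hf]
  · show e3 x Z W U (X 2 * rn (map C φ * JD (rr0 φ) (map C f)) - 1) = 0
    rw [map_sub, map_mul, e3_rn, map_mul, e2_map, map_one]
    have h1 : e3 x Z W U (X 2 : MvPolynomial (Fin 3) (MvPolynomial Unit O)) = U := by
      simp [e3]
    rw [h1]
    have h2 : e2 x Z W (JD (rr0 φ) (map C f)) = e2 x Z W (JJ φ f) := rfl
    rw [h2, hU, sub_self]

/-- the evaluation of the étale algebra -/
noncomputable def eb (hx : x * aeval ![Z, W] φ = Z) (hf : aeval ![Z, W] f = 0) {U : K}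
    (hU : U * (aeval ![Z, W] φ * e2 x Z W (JJ φ f)) = 1) : BB φ f →+* K :=
  Ideal.Quotient.lift _ (e3 x Z W U) fun p hp => by
    have h1 : Ideal.span (Set.range (vv (rr0 φ) (map C f) (map C φ))) ≤
        RingHom.ker (e3 x Z W U) := by
      rw [Ideal.span_le]
      rintro _ ⟨i, rfl⟩
      exact e3_rel x Z W φ f hx hf hU i
    exact h1 hp

theorem eb_inj (hx : x * aeval ![Z, W] φ = Z) (hf : aeval ![Z, W] f = 0) {U : K}
    (hU : U * (aeval ![Z, W] φ * e2 x Z W (JJ φ f)) = 1)
    (hker : ∀ p : MvPolynomial (Fin 2) O, aeval ![Z, W] p = 0 → f ∣ p) :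
    Function.Injective (eb x Z W φ f hx hf hU) := by
  set mk : MvPolynomial (Fin 3) (MvPolynomial Unit O) →+* BB φ f := Ideal.Quotient.mk _ with hmk
  set β : MvPolynomial (Fin 2) O →+* BB φ f := mk.comp
    ((rn (R := MvPolynomial Unit O)).toRingHom.comp (map C)) with hβ
  have heb : ∀ p, eb x Z W φ f hx hf hU (mk p) = e3 x Z W U p := fun p => rfl
  have hβe : ∀ s, eb x Z W φ f hx hf hU (β s) = aeval ![Z, W] s := by
    intro s
    show e3 x Z W U (rn (map C s)) = _
    rw [e3_rn, e2_map]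
  have hβX : ∀ i : Fin 2, β (X i) = mk (X i.castSucc) := by
    intro i
    show mk (rn (map C (X i))) = _
    rw [map_X, rn, rename_X]
  have hβC : ∀ o : O, β (C o) = mk (C (C o)) := by
    intro o
    show mk (rn (map C (C o))) = _
    rw [map_C, rn, rename_C]
  have h0 : β φ * mk (C (X ())) = β (X 0) := by
    have h1 : mk (rn (rr0 φ)) = 0 :=
      Ideal.Quotient.eq_zero_iff_mem.2 (Ideal.subset_span ⟨0, rfl⟩)
    have h2 : rn (rr0 φ) = rn (map C (X 0 : MvPolynomial (Fin 2) O)) -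
        C (X ()) * rn (map C φ) := by
      rw [rr0, map_sub, map_mul, map_X]
      congr 2
      rw [rn, rename_C]
    rw [h2, map_sub, map_mul, sub_eq_zero] at h1
    rw [mul_comm]
    exact h1.symm
  have h1 : β f = 0 := Ideal.Quotient.eq_zero_iff_mem.2 (Ideal.subset_span ⟨1, rfl⟩)
  have h2 : mk (X 2) * (β φ * mk (rn (JJ φ f))) = 1 := by
    have h3 : mk (X 2 * rn (map C φ * JJ φ f) - 1) = 0 :=
      Ideal.Quotient.eq_zero_iff_mem.2 (Ideal.subset_span ⟨2, rfl⟩)
    rw [map_sub, sub_eq_zero, map_one, map_mul, map_mul rn, map_mul] at h3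
    exact h3
  have c1 : ∀ p : MvPolynomial (Fin 2) (MvPolynomial Unit O), ∃ (N : ℕ)
      (s : MvPolynomial (Fin 2) O), (β φ) ^ N * mk (rn p) = β s := by
    intro p
    induction p using q_ind with
    | hC o =>
      refine ⟨0, C o, ?_⟩
      rw [pow_zero, one_mul, hβC, rn, rename_C]
    | hT =>
      refine ⟨1, X 0, ?_⟩
      rw [pow_one, ← h0, rn, rename_C]
    | hX i =>
      refine ⟨0, X i, ?_⟩
      rw [pow_zero, one_mul, hβX, rn, rename_X]
    | hadd p q hp hq =>
      obtain ⟨N, s, hs⟩ := hp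
      obtain ⟨M, t, ht⟩ := hq
      refine ⟨N + M, φ ^ M * s + φ ^ N * t, ?_⟩
      rw [map_add rn, map_add, map_add, map_mul, map_mul, map_pow, map_pow, ← hs, ← ht]
      ring
    | hmul p q hp hq =>
      obtain ⟨N, s, hs⟩ := hp
      obtain ⟨M, t, ht⟩ := hq
      refine ⟨N + M, s * t, ?_⟩
      rw [map_mul rn, map_mul, map_mul, ← hs, ← ht]
      ring
  obtain ⟨n0, j0, hj0⟩ := c1 (JJ φ f)
  have u1 : IsUnit (β φ * mk (rn (JJ φ f))) := IsUnit.of_mul_eq_one_right _ h2
  have u2 : IsUnit (β φ) := isUnit_of_mul_isUnit_left u1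
  have u3 : IsUnit (β (φ * j0)) := by
    have e : β (φ * j0) = (β φ) ^ n0 * (β φ * mk (rn (JJ φ f))) := by
      rw [map_mul, ← hj0]
      ring
    rw [e]
    exact (u2.pow _).mul u1
  have c2 : ∀ p : MvPolynomial (Fin 3) (MvPolynomial Unit O), ∃ (N : ℕ)
      (s : MvPolynomial (Fin 2) O), (β (φ * j0)) ^ N * mk p = β s := by
    intro p
    induction p using q_ind with
    | hC o => exact ⟨0, C o, by rw [pow_zero, one_mul, hβC]⟩
    | hT =>
      refine ⟨1, j0 * X 0, ?_⟩
      rw [pow_one, map_mul, map_mul, ← h0]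
      ring
    | hX i =>
      fin_cases i
      · exact ⟨0, X 0, by rw [pow_zero, one_mul, hβX]; rfl⟩
      · exact ⟨0, X 1, by rw [pow_zero, one_mul, hβX]; rfl⟩
      · refine ⟨1, φ ^ n0, ?_⟩
        show β (φ * j0) ^ 1 * mk (X 2) = _
        rw [pow_one, map_mul, ← hj0, map_pow]
        calc β φ * (β φ ^ n0 * mk (rn (JJ φ f))) * mk (X 2)
            = β φ ^ n0 * (mk (X 2) * (β φ * mk (rn (JJ φ f)))) := by ring
          _ = β φ ^ n0 := by rw [h2, mul_one]
    | hadd p q hp hq =>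
      obtain ⟨N, s, hs⟩ := hp
      obtain ⟨M, t, ht⟩ := hq
      refine ⟨N + M, (φ * j0) ^ M * s + (φ * j0) ^ N * t, ?_⟩
      rw [map_add mk, map_add β, map_mul β _ s, map_mul β _ t, map_pow, map_pow, ← hs, ← ht]
      ring
    | hmul p q hp hq =>
      obtain ⟨N, s, hs⟩ := hp
      obtain ⟨M, t, ht⟩ := hq
      refine ⟨N + M, s * t, ?_⟩
      rw [map_mul mk, map_mul β s t, ← hs, ← ht]
      ring
  rw [injective_iff_map_eq_zero]
  intro b hb
  obtain ⟨p, rfl⟩ := Ideal.Quotient.mk_surjective b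
  obtain ⟨N, s, hs⟩ := c2 p
  have h3 : aeval ![Z, W] s = 0 := by
    rw [← hβe, ← hs, map_mul]
    have : eb x Z W φ f hx hf hU (mk p) = 0 := hb
    rw [this, mul_zero]
  obtain ⟨g, rfl⟩ := hker s h3
  rw [map_mul β f g, h1, zero_mul] at hs
  exact (u3.pow N).mul_right_eq_zero.1 hs

/-- The ring with the coordinates is étale over the polynomial ring. -/
theorem core {S : Type} [CommRing S] (ιS : S →+* K) (hinj : Function.Injective ιS)
    (ψ : MvPolynomial Unit O →+* S) (hx : x * aeval ![Z, W] φ = Z) (hf : aeval ![Z, W] f = 0)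
    {U : K} (hU : U * (aeval ![Z, W] φ * e2 x Z W (JJ φ f)) = 1)
    (hker : ∀ p : MvPolynomial (Fin 2) O, aeval ![Z, W] p = 0 → f ∣ p)
    (hψC : ∀ o, ιS (ψ (C o)) = algebraMap O K o) (hψT : ιS (ψ (X ())) = x)
    (hrange : ιS.range = (e3 (O := O) x Z W U).range) : ψ.Etale := by
  have hei := eb_inj x Z W φ f hx hf hU hker
  have hr : (eb x Z W φ f hx hf hU).range = ιS.range := by
    rw [hrange]
    ext y
    constructor
    · rintro ⟨b, rfl⟩
      obtain ⟨p, rfl⟩ := Ideal.Quotient.mk_surjective b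
      exact ⟨p, rfl⟩
    · rintro ⟨p, rfl⟩
      exact ⟨Ideal.Quotient.mk _ p, rfl⟩
  let E1 : BB φ f ≃+* (eb x Z W φ f hx hf hU).range :=
    RingEquiv.ofBijective (eb x Z W φ f hx hf hU).rangeRestrict
      ⟨fun a b hab => hei (congrArg Subtype.val hab), RingHom.rangeRestrict_surjective _⟩
  let E2 : S ≃+* ιS.range := RingEquiv.ofBijective ιS.rangeRestrict
      ⟨fun a b hab => hinj (congrArg Subtype.val hab), RingHom.rangeRestrict_surjective _⟩
  let θ : BB φ f ≃+* S := E1.trans ((RingEquiv.subringCongr hr).trans E2.symm)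
  have hθ : ∀ b, ιS (θ b) = eb x Z W φ f hx hf hU b := by
    intro b
    have h1 : E2 (θ b) = RingEquiv.subringCongr hr (E1 b) := by
      show E2 (E2.symm _) = _
      rw [RingEquiv.apply_symm_apply]
      rfl
    exact congrArg Subtype.val h1
  have hψ : ψ = θ.toRingHom.comp (algebraMap (MvPolynomial Unit O) (BB φ f)) := by
    apply MvPolynomial.ringHom_ext
    · intro o
      apply hinj
      rw [hψC]
      show _ = ιS (θ (Ideal.Quotient.mk _ (C (C o))))
      rw [hθ]
      show _ = e3 x Z W U (C (C o))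
      simp [e3, eT]
    · intro i
      apply hinj
      rw [hψT]
      show _ = ιS (θ (Ideal.Quotient.mk _ (C (X i))))
      rw [hθ]
      show _ = e3 x Z W U (C (X i))
      simp [e3, eT]
  rw [hψ]
  have hE : Algebra.Etale (MvPolynomial Unit O) (BB φ f) := etale_quot _ _ _
  exact RingHom.Etale.respectsIso.1 _ θ (RingHom.etale_algebraMap.2 hE)

end

end Pool.Agent.Y953.ECT
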