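import Mathlib

set_option autoImplicit false

/-!
# Étale coordinate at the origin of a Weierstrass curve: statements of the parts (Mathlib only)
-/

namespace Pool.Agent.Y953.ECT

open MvPolynomial

/-- The Weierstrass equation in the coordinates `X 0 = x / y`, `X 1 = 1 / y` at the origin. -/
noncomputable def ff {O : Type} [CommRing O] (a₁ a₂ a₃ a₄ a₆ : O) : MvPolynomial (Fin 2) O :=
  X 1 + C a₁ * X 0 * X 1 + C a₃ * X 1 ^ 2 - X 0 ^ 3 - C a₂ * X 0 ^ 2 * X 1 -
    C a₄ * X 0 * X 1 ^ 2 - C a₆ * X 1 ^ 3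

/-- KER: the relations between `x / y` and `1 / y` are generated by the Weierstrass equation. -/
def S_KER : Prop := ∀ (O K : Type) [CommRing O] [IsDomain O] [Field K] [Algebra O K],
  Function.Injective (algebraMap O K) → ∀ (a₁ a₂ a₃ a₄ a₆ : O) (x y : K), Transcendental O x →
  y ≠ 0 → y ^ 2 + algebraMap O K a₁ * x * y + algebraMap O K a₃ * y =
    x ^ 3 + algebraMap O K a₂ * x ^ 2 + algebraMap O K a₄ * x + algebraMap O K a₆ →
  ∀ p : MvPolynomial (Fin 2) O, aeval ![x / y, 1 / y] p = 0 → ff a₁ a₂ a₃ a₄ a₆ ∣ p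

end Pool.Agent.Y953.ECT
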