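import Pool.Agent.Y223.G.Stm13
import Pool.Agent.Y953.ECT.Core
import Pool.Agent.Y953.ECT.Stm

set_option autoImplicit false

/-!
# The étale coordinate at the origin
-/

namespace Pool.Agent.Y953.ECT

open MvPolynomial Pool.Agent.Y223.G

section

variable {O K : Type} [CommRing O] [Field K] [Algebra O K]

/-- the value at the origin -/
noncomputable def c0 : MvPolynomial (Fin 2) (MvPolynomial Unit O) →+* O :=
  (constantCoeff (R := O) (σ := Unit)).comp (constantCoeff (R := MvPolynomial Unit O) (σ := Fin 2))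

theorem c0_C (o : O) : c0 (C (C o)) = o := by simp [c0]

theorem c0_T : c0 (C (X ()) : MvPolynomial (Fin 2) (MvPolynomial Unit O)) = 0 := by simp [c0]

theorem c0_X (i : Fin 2) : c0 (X i : MvPolynomial (Fin 2) (MvPolynomial Unit O)) = 0 := by
  simp [c0]

theorem c0_map (p : MvPolynomial (Fin 2) O) :
    c0 (map (C : O →+* MvPolynomial Unit O) p) = constantCoeff p := by
  simp [c0, constantCoeff_map]

theorem c0_JJ (φ : MvPolynomial (Fin 2) O) (a₁ a₂ a₃ a₄ a₆ : O) :
    c0 (JJ φ (ff a₁ a₂ a₃ a₄ a₆)) = 1 := by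
  have h1 : c0 (pderiv 0 (rr0 φ)) = 1 := by
    rw [rr0, map_sub, pderiv_X_self, pderiv_C_mul, map_sub, map_one, map_mul, c0_T]
    ring
  have h2 : c0 (pderiv 1 (rr0 φ)) = 0 := by
    rw [rr0, map_sub, pderiv_X_of_ne (by decide), pderiv_C_mul, map_sub, map_zero, map_mul, c0_T]
    ring
  have h3 : c0 (pderiv 1 (map (C : O →+* MvPolynomial Unit O) (ff a₁ a₂ a₃ a₄ a₆))) = 1 := by
    rw [pderiv_map, c0_map, ff]
    simp [Derivation.leibniz, Derivation.leibniz_pow]
  show c0 (pderiv 0 (rr0 φ) * pderiv 1 _ - pderiv 1 (rr0 φ) * pderiv 0 _) = 1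
  rw [map_sub, map_mul, map_mul, h1, h2, h3]
  ring

/-- Forms are polynomials in the coordinates at the origin. -/
theorem form_eq (z : Fin (2 + 1) → K) (hz2 : z 2 = 1) (hz1 : z 1 ≠ 0) (d : ℕ) (F : K)
    (hF : F ∈ FS O z d) :
    ∃ φ : MvPolynomial (Fin 2) O, F = aeval ![z 0 / z 1, 1 / z 1] φ * z 1 ^ d := by
  induction hF using Submodule.span_induction with
  | mem m hm =>
    obtain ⟨a, ha, rfl⟩ := hm
    refine ⟨X 0 ^ a 0 * X 1 ^ a 2, ?_⟩
    rw [Fin.sum_univ_three] at ha
    rw [Fin.prod_univ_three, hz2, ← ha]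
    simp only [map_mul, map_pow, aeval_X]
    show _ = (z 0 / z 1) ^ a 0 * (1 / z 1) ^ a 2 * z 1 ^ (a 0 + a 1 + a 2)
    rw [pow_add, pow_add, one_pow, div_pow, div_pow, one_pow]
    field_simp
  | zero => exact ⟨0, by rw [map_zero, zero_mul]⟩
  | add p q _ _ hp hq =>
    obtain ⟨φ, hφ⟩ := hp
    obtain ⟨χ, hχ⟩ := hq
    exact ⟨φ + χ, by rw [map_add, add_mul, ← hφ, ← hχ]⟩
  | smul o p _ hp =>
    obtain ⟨φ, hφ⟩ := hp
    refine ⟨C o * φ, ?_⟩
    rw [map_mul, mul_assoc, ← hφ, Algebra.smul_def, aeval_C]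

/-- The elements of the étale algebra modulo `q`. -/
theorem e2_mod {A : Subalgebra O K} (q : Ideal A) (x y w : A) (Z W : K) (hxZ : (x : K) = y * Z)
    (hwW : (w : K) = y * W) (hx : x ∈ q) (hw : w ∈ q)
    (p : MvPolynomial (Fin 2) (MvPolynomial Unit O)) :
    ∃ (N : ℕ) (a : A), (a : K) = (y : K) ^ N * e2 (x : K) Z W p ∧
      a - algebraMap O A (c0 p) * y ^ N ∈ q := by
  induction p using q_ind with
  | hC o =>
    refine ⟨0, algebraMap O A o, ?_, ?_⟩
    · simp [e2, eT]
    · rw [c0_C, pow_zero, mul_one, sub_self]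
      exact q.zero_mem
  | hT =>
    refine ⟨0, x, ?_, ?_⟩
    · simp [e2, eT]
    · rw [c0_T, map_zero, zero_mul, sub_zero]
      exact hx
  | hX i =>
    fin_cases i
    · refine ⟨1, x, ?_, ?_⟩
      · simp [e2, eT, hxZ]
      · show x - algebraMap O A (c0 (X 0)) * y ^ 1 ∈ q
        rw [c0_X, map_zero, zero_mul, sub_zero]
        exact hx
    · refine ⟨1, w, ?_, ?_⟩
      · simp [e2, eT, hwW]
      · show w - algebraMap O A (c0 (X 1)) * y ^ 1 ∈ q
        rw [c0_X, map_zero, zero_mul, sub_zero]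
        exact hw
  | hadd p r hp hr =>
    obtain ⟨N, a, ha, ha'⟩ := hp
    obtain ⟨M, b, hb, hb'⟩ := hr
    refine ⟨N + M, y ^ M * a + y ^ N * b, ?_, ?_⟩
    · push_cast
      rw [ha, hb, map_add]
      ring
    · have e : y ^ M * a + y ^ N * b - algebraMap O A (c0 (p + r)) * y ^ (N + M) =
          y ^ M * (a - algebraMap O A (c0 p) * y ^ N) +
          y ^ N * (b - algebraMap O A (c0 r) * y ^ M) := by
        rw [map_add, map_add]
        ring
      rw [e]
      exact q.add_mem (q.mul_mem_left _ ha') (q.mul_mem_left _ hb')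
  | hmul p r hp hr =>
    obtain ⟨N, a, ha, ha'⟩ := hp
    obtain ⟨M, b, hb, hb'⟩ := hr
    refine ⟨N + M, a * b, ?_, ?_⟩
    · push_cast
      rw [ha, hb, map_mul]
      ring
    · have e : a * b - algebraMap O A (c0 (p * r)) * y ^ (N + M) =
          a * (b - algebraMap O A (c0 r) * y ^ M) +
          algebraMap O A (c0 r) * y ^ M * (a - algebraMap O A (c0 p) * y ^ N) := by
        rw [map_mul, map_mul]
        ring
      rw [e]
      exact q.add_mem (q.mul_mem_left _ hb') (q.mul_mem_left _ ha')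

/-- The coordinate is étale, for a subalgebra equal to the chart. -/
theorem ect_aux (hK : S_KER) [IsDomain O] (hinj : Function.Injective (algebraMap O K))
    (z : Fin (2 + 1) → K) (Wc : WeierstrassCurve O) (hz : EC0 O K z Wc) (d : ℕ) (F : K)
    (hd : 1 ≤ d) (hF : F ∈ FS O z d) (hF0 : F ≠ 0) (A : Subalgebra O K) (hA : A = AF O z d F)
    (q : Ideal A) [q.IsPrime] (x y w : A)
    (hx : (x : K) = z 0 * z 1 ^ (d - 1) / F) (hy : (y : K) = z 1 ^ d / F)
    (hw : (w : K) = z 1 ^ (d - 1) / F) (hxq : x ∈ q) (hwq : w ∈ q) (hyq : y ∉ q) :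
    EtAt A q (fun _ : Unit => x) := by
  have hz2 := hz.z2
  have hz1 := hz.z0 1
  have hz0 := hz.z0 0
  obtain ⟨φ, hφ⟩ := form_eq z hz2 hz1 d F hF
  set Z : K := z 0 / z 1 with hZ
  set W : K := 1 / z 1 with hW
  set f := ff Wc.a₁ Wc.a₂ Wc.a₃ Wc.a₄ Wc.a₆ with hf
  set φk : K := aeval ![Z, W] φ with hφk
  have hφ0 : φk ≠ 0 := fun h => hF0 (by rw [hφ, h, zero_mul])
  have hy1 : (y : K) = 1 / φk := by
    rw [hy, hφ]
    field_simp
  have hy0 : (y : K) ≠ 0 := by
    rw [hy1]
    exact one_div_ne_zero hφ0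
  have hzd : z 1 ^ d = z 1 ^ (d - 1) * z 1 := by
    rw [← pow_succ, Nat.sub_add_cancel hd]
  have hxZ : (x : K) = y * Z := by
    rw [hx, hy, hzd, hZ]
    field_simp
  have hwW : (w : K) = y * W := by
    rw [hw, hy, hzd, hW]
    field_simp
  obtain ⟨N, h, hh, hh'⟩ := e2_mod q x y w Z W hxZ hwW hxq hwq (JJ φ f)
  rw [hf, c0_JJ, map_one, one_mul] at hh'
  have hhq : h ∉ q := fun h1 => hyq (Ideal.IsPrime.mem_of_pow_mem ‹_› N
    (by simpa using q.sub_mem h1 hh'))
  set Jk : K := e2 (x : K) Z W (JJ φ f) with hJk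
  have hJ0 : Jk ≠ 0 := by
    intro h1
    apply hhq
    have h2 : h = 0 := by
      apply Subtype.ext
      rw [hh, h1, mul_zero]
      rfl
    rw [h2]
    exact q.zero_mem
  set g : A := y * h with hg
  have hgq : g ∉ q := fun h1 => (Ideal.IsPrime.mem_or_mem ‹_› h1).elim hyq hhq
  have hgk : (g : K) = (y : K) ^ (N + 1) * Jk := by
    rw [hg]
    push_cast
    rw [hh]
    ring
  have hg0 : (g : K) ≠ 0 := by
    rw [hgk]
    exact mul_ne_zero (pow_ne_zero _ hy0) hJ0
  refine ⟨g, hgq, ?_⟩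
  let ιA : A →+* K := A.val.toRingHom
  let ιS : Localization.Away g →+* K := IsLocalization.Away.lift g (g := ιA) (IsUnit.mk0 _ hg0)
  have hιS : ∀ a : A, ιS (algebraMap A _ a) = a := fun a => IsLocalization.Away.lift_eq g _ a
  have hu : IsUnit (algebraMap A (Localization.Away g) g) := IsLocalization.Away.algebraMap_isUnit g
  have hιinj : Function.Injective ιS := by
    rw [injective_iff_map_eq_zero]
    intro s hs
    obtain ⟨n, a, ha⟩ := IsLocalization.Away.surj g s
    have h1 : ιS (algebraMap A _ a) = 0 := by rw [← ha, map_mul, hs, zero_mul]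
    rw [hιS] at h1
    have h2 : a = 0 := Subtype.ext h1
    rw [h2, map_zero] at ha
    exact (hu.pow n).mul_left_eq_zero.1 (by rw [← ha])
  set U : K := (y : K) / Jk with hU
  have hUr : U * (aeval ![Z, W] φ * e2 (x : K) Z W (JJ φ f)) = 1 := by
    rw [hU, ← hφk, ← hJk, hy1]
    field_simp
  have hxφ : (x : K) * aeval ![Z, W] φ = Z := by
    rw [hxZ, ← hφk, hy1]
    field_simp
  have hfz : aeval ![Z, W] f = 0 := by
    have e := hz.eq
    rw [hf, ff]
    simp only [map_sub, map_add, map_mul, map_pow, aeval_X, aeval_C]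
    show W + algebraMap O K Wc.a₁ * Z * W + algebraMap O K Wc.a₃ * W ^ 2 - Z ^ 3 -
      algebraMap O K Wc.a₂ * Z ^ 2 * W - algebraMap O K Wc.a₄ * Z * W ^ 2 -
      algebraMap O K Wc.a₆ * W ^ 3 = 0
    have e1 : W + algebraMap O K Wc.a₁ * Z * W + algebraMap O K Wc.a₃ * W ^ 2 - Z ^ 3 -
      algebraMap O K Wc.a₂ * Z ^ 2 * W - algebraMap O K Wc.a₄ * Z * W ^ 2 -
      algebraMap O K Wc.a₆ * W ^ 3 = ((z 1 ^ 2 + algebraMap O K Wc.a₁ * z 0 * z 1 +
      algebraMap O K Wc.a₃ * z 1) - (z 0 ^ 3 + algebraMap O K Wc.a₂ * z 0 ^ 2 +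
      algebraMap O K Wc.a₄ * z 0 + algebraMap O K Wc.a₆)) / z 1 ^ 3 := by
      rw [hZ, hW]
      field_simp
      ring
    rw [e1, e, sub_self, zero_div]
  have hker : ∀ p : MvPolynomial (Fin 2) O, aeval ![Z, W] p = 0 → f ∣ p :=
    hK O K hinj Wc.a₁ Wc.a₂ Wc.a₃ Wc.a₄ Wc.a₆ (z 0) (z 1) hz.tr hz1 hz.eq
  set ψ : MvPolynomial Unit O →+* Localization.Away g :=
    (algebraMap A (Localization.Away g)).comp
      (MvPolynomial.aeval (fun _ : Unit => x) : MvPolynomial Unit O →ₐ[O] A).toRingHom with hψ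
  have hψC : ∀ o, ιS (ψ (C o)) = algebraMap O K o := by
    intro o
    show ιS (algebraMap A _ (aeval (fun _ : Unit => x) (C o))) = _
    rw [hιS, aeval_C]
    rfl
  have hψT : ιS (ψ (X ())) = x := by
    show ιS (algebraMap A _ (aeval (fun _ : Unit => x) (X ()))) = _
    rw [hιS, aeval_X]
  refine core (x : K) Z W φ f ιS hιinj ψ hxφ hfz hUr hker hψC hψT ?_
  have hmemS : ∀ (a : A) (n : ℕ), (a : K) / (g : K) ^ n ∈ ιS.range := by
    intro a n
    obtain ⟨v, hv⟩ := hu.exists_right_inv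
    refine ⟨algebraMap A _ a * v ^ n, ?_⟩
    have h1 : (g : K) * ιS v = 1 := by
      rw [← hιS g, ← map_mul, hv, map_one]
    have h2 : ιS v = 1 / (g : K) := by
      rw [eq_div_iff hg0, mul_comm]
      exact h1
    rw [map_mul, map_pow, hιS, h2, one_div, inv_pow, div_eq_mul_inv]
  have e3mem : ∀ p, e3 (O := O) (x : K) Z W U p ∈ (e3 (O := O) (x : K) Z W U).range :=
    fun p => ⟨p, rfl⟩
  have hZm : Z ∈ (e3 (O := O) (x : K) Z W U).range := ⟨X 0, by simp [e3]⟩
  have hWm : W ∈ (e3 (O := O) (x : K) Z W U).range := ⟨X 1, by simp [e3]⟩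
  have hUm : U ∈ (e3 (O := O) (x : K) Z W U).range := ⟨X 2, by simp [e3]⟩
  have hOm : ∀ o, algebraMap O K o ∈ (e3 (O := O) (x : K) Z W U).range :=
    fun o => ⟨C (C o), by simp [e3, eT]⟩
  have hφm : φk ∈ (e3 (O := O) (x : K) Z W U).range := ⟨rn (map C φ), by rw [e3_rn, e2_map]⟩
  have hJm : Jk ∈ (e3 (O := O) (x : K) Z W U).range := ⟨rn (JJ φ f), by rw [e3_rn]⟩
  have hym : (y : K) ∈ (e3 (O := O) (x : K) Z W U).range := by
    have : (y : K) = U * Jk := by
      rw [hU]
      field_simp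
    rw [this]
    exact mul_mem hUm hJm
  apply le_antisymm
  · rintro _ ⟨s, rfl⟩
    obtain ⟨n, a, ha⟩ := IsLocalization.Away.surj g s
    have h1 : ιS s * (g : K) ^ n = a := by
      rw [← hιS a, ← ha, map_mul, map_pow, hιS]
    have h2 : ιS s = a * (φk ^ (N + 2) * U) ^ n := by
      have h3 : (g : K) * (φk ^ (N + 2) * U) = 1 := by
        rw [hgk, hU, hy1, div_pow, one_pow]
        field_simp
        ring
      calc ιS s = ιS s * ((g : K) * (φk ^ (N + 2) * U)) ^ n := by rw [h3, one_pow, mul_one]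
        _ = ιS s * (g : K) ^ n * (φk ^ (N + 2) * U) ^ n := by rw [mul_pow]; ring
        _ = _ := by rw [h1]
    rw [h2]
    refine mul_mem ?_ (pow_mem (mul_mem (pow_mem hφm _) hUm) _)
    have h4 : ∀ b ∈ A, b ∈ (e3 (O := O) (x : K) Z W U).range := by
      intro b hb
      rw [hA] at hb
      induction hb using Algebra.adjoin_induction with
      | mem b hb =>
        obtain ⟨m, ⟨e, he, rfl⟩, rfl⟩ := hb
        have h5 : (∏ i, z i ^ e i) / F = Z ^ e 0 * W ^ e 2 * y := by
          rw [Fin.sum_univ_three] at he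
          rw [Fin.prod_univ_three, hz2, hy, ← he, hZ, hW, pow_add, pow_add, div_pow, div_pow,
            one_pow]
          field_simp
        rw [h5]
        exact mul_mem (mul_mem (pow_mem hZm _) (pow_mem hWm _)) hym
      | algebraMap o => exact hOm o
      | add _ _ _ _ h1 h2 => exact add_mem h1 h2
      | mul _ _ _ _ h1 h2 => exact mul_mem h1 h2
    exact h4 _ a.2
  · rintro _ ⟨p, rfl⟩
    have hyi : 1 / (y : K) ∈ ιS.range := by
      have : 1 / (y : K) = (h : K) / (g : K) ^ 1 := by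
        rw [hg]
        push_cast
        have hh0 : (h : K) ≠ 0 := by
          rw [hh]
          exact mul_ne_zero (pow_ne_zero _ hy0) hJ0
        field_simp
      rw [this]
      exact hmemS _ _
    have hAm : ∀ a : A, (a : K) ∈ ιS.range := fun a => ⟨algebraMap A _ a, hιS a⟩
    induction p using q_ind with
    | hC o =>
      have : e3 (x : K) Z W U (C (C o)) = algebraMap O K o := by simp [e3, eT]
      rw [this]
      exact hAm (algebraMap O A o)
    | hT =>
      have : e3 (O := O) (x : K) Z W U (C (X ())) = x := by simp [e3, eT]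
      rw [this]
      exact hAm x
    | hX i =>
      fin_cases i
      · have : e3 (O := O) (x : K) Z W U (X 0) = (x : K) * (1 / (y : K)) := by
          have h1 : e3 (O := O) (x : K) Z W U (X 0) = Z := by simp [e3]
          rw [h1, hxZ]
          field_simp
        show e3 (O := O) (x : K) Z W U (X 0) ∈ _
        rw [this]
        exact mul_mem (hAm x) hyi
      · have : e3 (O := O) (x : K) Z W U (X 1) = (w : K) * (1 / (y : K)) := by
          have h1 : e3 (O := O) (x : K) Z W U (X 1) = W := by simp [e3]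
          rw [h1, hwW]
          field_simp
        show e3 (O := O) (x : K) Z W U (X 1) ∈ _
        rw [this]
        exact mul_mem (hAm w) hyi
      · have : e3 (O := O) (x : K) Z W U (X 2) = ((y ^ (N + 2) : A) : K) / (g : K) ^ 1 := by
          have h1 : e3 (O := O) (x : K) Z W U (X 2) = U := by simp [e3]
          rw [h1, hgk, hU]
          push_cast
          field_simp
          ring
        show e3 (O := O) (x : K) Z W U (X 2) ∈ _
        rw [this]
        exact hmemS _ _
    | hadd p r hp hr => rw [map_add]; exact add_mem hp hr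
    | hmul p r hp hr => rw [map_mul]; exact mul_mem hp hr

/-- The coordinate is étale, given the kernel of the coordinates. -/
theorem t_ECET_of (hK : S_KER) : S_ECET := by
  intro O K _ _ _ _ _ hinj z Wc hz d F hd hF hF0 q _ x y w hx hy hw hxq hwq hyq
  exact ect_aux hK hinj z Wc hz d F hd hF hF0 _ rfl q x y w hx hy hw hxq hwq hyq

end

end Pool.Agent.Y953.ECT
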