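import Mathlib

set_option autoImplicit false

/-!
# Étale algebras: two equations in two unknowns with invertible Jacobian determinant
-/

namespace Pool.Agent.Y953.ECT

open MvPolynomial

/-- the Jacobian determinant of two polynomials in two variables -/
noncomputable def JD {R : Type} [CommRing R] (r₀ r₁ : MvPolynomial (Fin 2) R) :
    MvPolynomial (Fin 2) R :=
  pderiv 0 r₀ * pderiv 1 r₁ - pderiv 1 r₀ * pderiv 0 r₁

/-- two variables as the first two of three variables -/
noncomputable def rn {R : Type} [CommRing R] : MvPolynomial (Fin 2) R →ₐ[R] MvPolynomial (Fin 3) R :=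
  rename Fin.castSucc

/-- the relations -/
noncomputable def vv {R : Type} [CommRing R] (r₀ r₁ D : MvPolynomial (Fin 2) R) :
    Fin 3 → MvPolynomial (Fin 3) R :=
  ![rn r₀, rn r₁, X 2 * rn (D * JD r₀ r₁) - 1]

theorem pd2 {R : Type} [CommRing R] (p : MvPolynomial (Fin 2) R) : pderiv 2 (rn p) = 0 := by
  classical
  refine pderiv_eq_zero_of_notMem_vars fun h => ?_
  have h1 := vars_rename _ _ h
  rw [Finset.mem_image] at h1
  obtain ⟨i, -, hi⟩ := h1
  fin_cases i <;> simp [Fin.ext_iff] at hi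

theorem pd0 {R : Type} [CommRing R] (p : MvPolynomial (Fin 2) R) :
    pderiv 0 (rn p) = rn (pderiv 0 p) := by
  have h := pderiv_rename (R := R) (f := (Fin.castSucc : Fin 2 → Fin 3))
    (Fin.castSucc_injective 2) 0 p
  exact h

theorem pd1 {R : Type} [CommRing R] (p : MvPolynomial (Fin 2) R) :
    pderiv 1 (rn p) = rn (pderiv 1 p) := by
  have h := pderiv_rename (R := R) (f := (Fin.castSucc : Fin 2 → Fin 3))
    (Fin.castSucc_injective 2) 1 p
  exact h

theorem etale_quot {R : Type} [CommRing R] (r₀ r₁ D : MvPolynomial (Fin 2) R) :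
    Algebra.Etale R (MvPolynomial (Fin 3) R ⧸ Ideal.span (Set.range (vv r₀ r₁ D))) := by
  classical
  let P := Algebra.PreSubmersivePresentation.naive (R := R) (v := vv r₀ r₁ D) (fun i => i)
    Function.injective_id
  have hJ : IsUnit P.jacobian := by
    rw [Algebra.PreSubmersivePresentation.jacobian_eq_jacobiMatrix_det]
    have h1 : P.jacobiMatrix.det = rn (JD r₀ r₁) * rn (D * JD r₀ r₁) := by
      rw [Matrix.det_fin_three]
      simp only [P, Algebra.PreSubmersivePresentation.jacobiMatrix_naive]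
      have a20 : pderiv 2 (vv r₀ r₁ D 0) = 0 := pd2 _
      have a21 : pderiv 2 (vv r₀ r₁ D 1) = 0 := pd2 _
      have a22 : pderiv 2 (vv r₀ r₁ D 2) = rn (D * JD r₀ r₁) := by
        show pderiv 2 (X 2 * rn (D * JD r₀ r₁) - 1) = _
        rw [map_sub, Derivation.leibniz, pd2]
        simp [pderiv_X_self]
      have a00 : pderiv 0 (vv r₀ r₁ D 0) = rn (pderiv 0 r₀) := pd0 _
      have a01 : pderiv 0 (vv r₀ r₁ D 1) = rn (pderiv 0 r₁) := pd0 _
      have a10 : pderiv 1 (vv r₀ r₁ D 0) = rn (pderiv 1 r₀) := pd1 _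
      have a11 : pderiv 1 (vv r₀ r₁ D 1) = rn (pderiv 1 r₁) := pd1 _
      rw [a20, a21, a22, a00, a01, a10, a11]
      simp only [JD, map_sub, map_mul]
      ring
    rw [h1]
    have h2 : (algebraMap (MvPolynomial (Fin 3) R)
        (MvPolynomial (Fin 3) R ⧸ Ideal.span (Set.range (vv r₀ r₁ D)))) (X 2) *
        (algebraMap (MvPolynomial (Fin 3) R)
        (MvPolynomial (Fin 3) R ⧸ Ideal.span (Set.range (vv r₀ r₁ D)))) (rn (D * JD r₀ r₁)) = 1 := by
      rw [← map_mul, ← sub_eq_zero, ← map_one (algebraMap (MvPolynomial (Fin 3) R)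
        (MvPolynomial (Fin 3) R ⧸ Ideal.span (Set.range (vv r₀ r₁ D)))), ← map_sub]
      refine Ideal.Quotient.eq_zero_iff_mem.2 (Ideal.subset_span ⟨2, rfl⟩)
    have h3 : IsUnit ((algebraMap (MvPolynomial (Fin 3) R)
        (MvPolynomial (Fin 3) R ⧸ Ideal.span (Set.range (vv r₀ r₁ D)))) (rn (D * JD r₀ r₁))) :=
      IsUnit.of_mul_eq_one_right _ h2
    have h4 : IsUnit ((algebraMap (MvPolynomial (Fin 3) R)
        (MvPolynomial (Fin 3) R ⧸ Ideal.span (Set.range (vv r₀ r₁ D)))) (rn (JD r₀ r₁))) := by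
      rw [map_mul rn, map_mul] at h3
      exact isUnit_of_mul_isUnit_right h3
    have h5 := h4.mul h3
    rw [← map_mul] at h5
    exact h5
  let Q : Algebra.SubmersivePresentation R
    (MvPolynomial (Fin 3) R ⧸ Ideal.span (Set.range (vv r₀ r₁ D))) (Fin 3) (Fin 3) :=
    { P with jacobian_isUnit := hJ }
  have hQ : Algebra.IsStandardSmoothOfRelativeDimension 0 R
      (MvPolynomial (Fin 3) R ⧸ Ideal.span (Set.range (vv r₀ r₁ D))) :=
    Q.isStandardSmoothOfRelativeDimension (by simp [Algebra.Presentation.dimension])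
  infer_instance

end Pool.Agent.Y953.ECT
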